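import Pool.Agent.Y125.FT2.TwP

set_option autoImplicit false
set_option linter.all false

/-! FT2-Tower: the tower with several branch points. -/

namespace Pool.Agent.Y125.FT2

open Polynomial IsDedekindDomain WithZero
open Pool.Agent.Y160.SE (IsPw)
open Pool.Agent.Y160.FT
open Pool.Agent.Y228.FT

section step

variable {k : Type} [Field k] {ℓ q s : ℕ} {ζ : k} {g : k[X]}

/-- the data of a step -/
theorem step_data2 (h3 : StRes) (hℓ : ℓ.Prime) (hq : 2 ≤ q) {l : List (k[X] × k)} {b : k[X]} {a : k}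
    (hc : Cond2 ℓ q g (l ++ [(b, a)])) {R : Type} [CommRing R] [IsDedekindDomain R] [Algebra k R]
    {x u : R} (hP : Pres x u (FF ℓ q g l)) :
    ∃ π : R, π ≠ 0 ∧ u = aeval x b + algebraMap k R a * π ∧
      (∀ p : k[X], π ∣ aeval x p ↔ (g + (EE ℓ (RingHom.id k[X]) l b) ^ q) ∣ p) ∧
      ∀ z : R, ∃ p : k[X], π ∣ z - aeval x p := by
  have ha : a ≠ 0 := hc.ne l b a [] rfl
  obtain ⟨hr1, hr2⟩ := h3 k R x u (FF ℓ q g l) hP b
  rw [FF_eval] at hr1
  have hdv : ∀ y : R, algebraMap k R a⁻¹ * (u - aeval x b) ∣ y ↔ (u - aeval x b) ∣ y := by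
    intro y
    have hu : IsUnit (algebraMap k R a⁻¹) := (IsUnit.mk0 _ (inv_ne_zero ha)).map (algebraMap k R)
    exact hu.mul_left_dvd
  have hd : ∀ p : k[X], algebraMap k R a⁻¹ * (u - aeval x b) ∣ aeval x p ↔
      (g + (EE ℓ (RingHom.id k[X]) l b) ^ q) ∣ p := fun p => (hdv _).trans (hr1 p)
  have hs : ∀ z : R, ∃ p : k[X], algebraMap k R a⁻¹ * (u - aeval x b) ∣ z - aeval x p := fun z => by
    obtain ⟨p, hp⟩ := hr2 z
    exact ⟨p, (hdv _).2 hp⟩
  refine ⟨algebraMap k R a⁻¹ * (u - aeval x b), ?_, ?_, hd, hs⟩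
  · intro h0
    have h1 : u - aeval x b = 0 := by
      have hu : algebraMap k R a⁻¹ ≠ 0 :=
        ((IsUnit.mk0 _ (inv_ne_zero ha)).map (algebraMap k R)).ne_zero
      exact (mul_eq_zero.1 h0).resolve_left hu
    have h2 : eval₂ ((aeval x : k[X] →ₐ[k] R) : k[X] →+* R) u (X - C b) = 0 := by
      rw [eval₂_sub, eval₂_X, eval₂_C]
      exact h1
    have h4 := (hP.ker _).1 h2
    have h5 := natDegree_le_of_dvd h4 (X_sub_C_ne_zero b)
    rw [natDegree_X_sub_C] at h5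
    have h6 := FF_natDegree (q := q) hℓ.pos hq g l (fun l₁ b' a' l₂ h =>
      hc.ne l₁ b' a' (l₂ ++ [(b, a)]) (by rw [h, List.append_assoc]; rfl))
    omega
  · rw [← mul_assoc, ← map_mul, mul_inv_cancel₀ ha, map_one, one_mul]
    ring

theorem degG2 {l : List (k[X] × k)} {b : k[X]} {a : k}
    (hc : Cond2 ℓ q g (l ++ [(b, a)])) :
    (g + (EE ℓ (RingHom.id k[X]) l b) ^ q).natDegree = g.natDegree := by
  apply natDegree_add_eq_left_of_natDegree_lt
  refine lt_of_le_of_lt natDegree_pow_le ?_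
  refine EE_deg_lt l q g.natDegree b (fun l₁ b' a' l₂ h => ?_) (hc.deg l b a [] rfl)
  exact hc.deg l₁ b' a' (l₂ ++ [(b, a)]) (by rw [h, List.append_assoc]; rfl)

theorem deg_pos (hℓ : ℓ.Prime) (hcop : ℓ.Coprime g.natDegree) : 0 < g.natDegree := by
  rcases Nat.eq_zero_or_pos g.natDegree with h | h
  · rw [h, Nat.coprime_zero_right] at hcop
    exact absurd hcop hℓ.one_lt.ne'
  · exact h

/-- the hypothesis on the fraction field -/
theorem stepA2 (h6 : StRow) (hℓ : ℓ.Prime) (hq : q = ℓ ^ (s + 1)) {l : List (k[X] × k)} {b₀ : k[X]}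
    {a₀ : k} (hc : Cond2 ℓ q g (l ++ [(b₀, a₀)])) {R : Type} [CommRing R] [IsDedekindDomain R]
    [Algebra k R] {x u π : R} (hP : Pres x u (FF ℓ q g l)) (hπ : π ≠ 0)
    (huπ : u = aeval x b₀ + algebraMap k R a₀ * π) (hR : PropR ℓ g x) (a b : R) (ha : a ≠ 0)
    (hb : b ≠ 0) (hab : ∀ v : HeightOneSpectrum R, v.intValuation π = 1 →
      IsPw ℓ (v.intValuation a / v.intValuation b)) :
    ∃ (c : k) (d w w' : R), c ≠ 0 ∧
      (d ≠ 0 ∧ ∃ (A : k[X]) (j : ℕ), VV g A ∧ d = aeval x A * π ^ j) ∧ w ≠ 0 ∧ w' ≠ 0 ∧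
      a * w' ^ ℓ = algebraMap k R c * d * b * w ^ ℓ := by
  have ha₀ : a₀ ≠ 0 := hc.ne l b₀ a₀ [] rfl
  have hinj := IsFractionRing.injective R (FractionRing R)
  have hne : ∀ y : R, y ≠ 0 → algebraMap R (FractionRing R) y ≠ 0 := fun y hy h =>
    hy (hinj (by rw [h, map_zero]))
  have hva : ∀ (v : HeightOneSpectrum R), v.valuation (FractionRing R)
      (algebraMap R (FractionRing R) a / algebraMap R (FractionRing R) b) =
      v.intValuation a / v.intValuation b := fun v => by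
    rw [map_div₀, HeightOneSpectrum.valuation_of_algebraMap, HeightOneSpectrum.valuation_of_algebraMap]
  have hub : u - aeval x b₀ = algebraMap k R a₀ * π := by rw [huπ]; ring
  have hz0 : algebraMap R (FractionRing R) a / algebraMap R (FractionRing R) b ≠ 0 :=
    div_ne_zero (hne a ha) (hne b hb)
  obtain ⟨c₁, B, hc₁, hB, hrow, hlast⟩ := h6 ℓ q s k g l b₀ hℓ hq hc.monic (deg_pos hℓ hc.cop)
    (fun y hy => by
      obtain ⟨l₁, l₂, hl⟩ := List.append_of_mem hy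
      exact hc.ne l₁ y.1 y.2 (l₂ ++ [(b₀, a₀)]) (by rw [hl, List.append_assoc]; rfl))
    (hc.gsep l b₀ a₀ [] rfl) (hc.cpr l b₀ a₀ [] rfl) R (FractionRing R) x u hP
    (algebraMap R (FractionRing R) a / algebraMap R (FractionRing R) b) hz0 (fun v hv => by
      rw [hva]
      refine hab v ?_
      rw [hub, map_mul, val_unit v ((IsUnit.mk0 _ ha₀).map (algebraMap k R)), one_mul] at hv
      exact hv)
  obtain ⟨c₂, n, W, hc₂, hBW⟩ := hc.row l b₀ a₀ [] rfl c₁ B hc₁ hB hrow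
  have hall := hlast c₂ n W hc₂ hBW
  have huL : algebraMap R (FractionRing R) (u - aeval x b₀) ≠ 0 := by
    apply hne
    rw [hub]
    exact mul_ne_zero ((IsUnit.mk0 _ ha₀).map (algebraMap k R)).ne_zero hπ
  obtain ⟨c, A, w, hcc, hA, hw, hz⟩ := hR (FractionRing R)
    (fun c => IsScalarTower.algebraMap_apply k R (FractionRing R) c) _
    (div_ne_zero hz0 (pow_ne_zero n huL)) hall
  obtain ⟨w1, w2, hw2, rfl⟩ := IsFractionRing.div_surjective (A := R) w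
  have hw20 : w2 ≠ 0 := nonZeroDivisors.ne_zero hw2
  have hw10 : w1 ≠ 0 := fun h => hw (by rw [h, map_zero, zero_div])
  have hbL := hne b hb
  have hw2L := hne w2 hw20
  have key : a * w2 ^ ℓ = algebraMap k R c * aeval x A * (u - aeval x b₀) ^ n * b * w1 ^ ℓ := by
    apply hinj
    simp only [map_mul, map_pow]
    rw [← IsScalarTower.algebraMap_apply k R (FractionRing R)]
    have hz' := hz
    rw [div_pow, div_div, div_eq_iff (mul_ne_zero hbL (pow_ne_zero n huL))] at hz'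
    rw [hz']
    field_simp
  have hAx : aeval x A ≠ 0 := fun h => by
    rw [h, mul_zero, zero_mul, zero_mul, zero_mul] at key
    exact mul_ne_zero ha (pow_ne_zero _ hw20) key
  refine ⟨c * a₀ ^ n, aeval x A * π ^ n, w1, w2, mul_ne_zero hcc (pow_ne_zero _ ha₀),
    ⟨mul_ne_zero hAx (pow_ne_zero _ hπ), A, n, hA, rfl⟩, hw10, hw20, ?_⟩
  rw [key, hub, map_mul, map_pow]
  ring

/-- the condition on the norm residues at one place -/
theorem stepB1 (hℓ : ℓ.Prime) {R : Type} [CommRing R] [IsDedekindDomain R] [Algebra k R]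
    {x π : R} {v : HeightOneSpectrum R} (hvπ : v.intValuation π = exp (-1 : ℤ)) (c : k) (hc0 : c ≠ 0)
    (A : k[X]) (j : ℕ) (hvA : v.intValuation (aeval x A) = 1)
    (hnr : ∃ (e : ℕ) (w : R), v.intValuation w = 1 ∧
        v.intValuation (algebraMap k R c * (aeval x A * π ^ j) -
          ((-1) ^ (ℓ - 1) * π) ^ e * w ^ ℓ) < exp (-(e : ℤ))) :
    ∃ w : R, v.intValuation (aeval x (C (c * ((-1) ^ (ℓ - 1)) ^ j) * A) - w ^ ℓ) < 1 := by
  obtain ⟨e, w, hw, hlt⟩ := hnr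
  have hvc : v.intValuation (algebraMap k R c) = 1 :=
    val_unit v ((IsUnit.mk0 _ hc0).map (algebraMap k R))
  have hpw : ∀ n : ℕ, v.intValuation π ^ n = exp (-(n : ℤ)) := fun n => by
    rw [hvπ, ← exp_nsmul]
    congr 1
    rw [nsmul_eq_mul]
    ring
  have hvε : ∀ n : ℕ, v.intValuation ((-1 : R) ^ n) = 1 := fun n =>
    val_unit v (isUnit_one.neg.pow n)
  have h1 : v.intValuation (algebraMap k R c * (aeval x A * π ^ j)) = exp (-(j : ℤ)) := by
    rw [map_mul, map_mul, map_pow, hvc, hvA, one_mul, one_mul, hpw]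
  have h2 : v.intValuation (((-1) ^ (ℓ - 1) * π) ^ e * w ^ ℓ) = exp (-(e : ℤ)) := by
    rw [map_mul, map_pow, map_pow, map_mul, hvε, one_mul, hw, one_pow, mul_one, hpw]
  have hje : j = e := by
    rcases lt_trichotomy j e with h | h | h
    · exfalso
      have h5 : v.intValuation (algebraMap k R c * (aeval x A * π ^ j)) ≤
          max (v.intValuation (algebraMap k R c * (aeval x A * π ^ j) -
            ((-1) ^ (ℓ - 1) * π) ^ e * w ^ ℓ)) (v.intValuation (((-1) ^ (ℓ - 1) * π) ^ e * w ^ ℓ)) := by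
        have := v.intValuation.map_add (algebraMap k R c * (aeval x A * π ^ j) -
            ((-1) ^ (ℓ - 1) * π) ^ e * w ^ ℓ) (((-1) ^ (ℓ - 1) * π) ^ e * w ^ ℓ)
        rwa [sub_add_cancel] at this
      rw [h1, h2, max_eq_right hlt.le, exp_le_exp] at h5
      omega
    · exact h
    · exfalso
      have h5 : v.intValuation (((-1) ^ (ℓ - 1) * π) ^ e * w ^ ℓ) ≤
          max (v.intValuation (algebraMap k R c * (aeval x A * π ^ j)))
            (v.intValuation (algebraMap k R c * (aeval x A * π ^ j) -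
            ((-1) ^ (ℓ - 1) * π) ^ e * w ^ ℓ)) := by
        have := v.intValuation.map_sub (algebraMap k R c * (aeval x A * π ^ j))
          (algebraMap k R c * (aeval x A * π ^ j) - ((-1) ^ (ℓ - 1) * π) ^ e * w ^ ℓ)
        rwa [sub_sub_cancel] at this
      rw [h1, h2] at h5
      have h6 : exp (-(j : ℤ)) < exp (-(e : ℤ)) := exp_lt_exp.2 (by omega)
      exact absurd h5 (not_le.2 (max_lt h6 hlt))
  subst hje
  have h7 : algebraMap k R c * (aeval x A * π ^ j) - ((-1) ^ (ℓ - 1) * π) ^ j * w ^ ℓ =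
      π ^ j * (algebraMap k R c * aeval x A - ((-1) ^ (ℓ - 1)) ^ j * w ^ ℓ) := by
    rw [mul_pow]
    ring
  rw [h7, map_mul, map_pow, hpw] at hlt
  have h8 : v.intValuation (algebraMap k R c * aeval x A - ((-1) ^ (ℓ - 1)) ^ j * w ^ ℓ) < 1 := by
    by_contra hcon
    push Not at hcon
    have : exp (-(j : ℤ)) * 1 ≤ exp (-(j : ℤ)) *
        v.intValuation (algebraMap k R c * aeval x A - ((-1) ^ (ℓ - 1)) ^ j * w ^ ℓ) := by gcongr
    rw [mul_one] at this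
    exact absurd hlt (not_lt.2 this)
  have hε2R : ((-1 : R) ^ (ℓ - 1)) ^ j * ((-1) ^ (ℓ - 1)) ^ j = 1 := by
    rw [← mul_pow, ← mul_pow]
    norm_num
  refine ⟨w, ?_⟩
  have e1 : aeval x (C (c * ((-1) ^ (ℓ - 1)) ^ j) * A) - w ^ ℓ =
      ((-1) ^ (ℓ - 1)) ^ j * (algebraMap k R c * aeval x A - ((-1) ^ (ℓ - 1)) ^ j * w ^ ℓ) := by
    rw [map_mul, aeval_C]
    simp only [map_mul, map_pow, map_neg, map_one]
    linear_combination (w ^ ℓ) * hε2R
  have e2 : v.intValuation (((-1 : R) ^ (ℓ - 1)) ^ j) = 1 := by rw [← pow_mul]; exact hvε _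
  rw [e1, map_mul, e2, one_mul]
  exact h8

/-- residues modulo a place above `π` are residues of polynomials -/
theorem res_pow {R : Type} [CommRing R] [IsDedekindDomain R] [Algebra k R]
    {x π : R} (hs : ∀ z : R, ∃ p : k[X], π ∣ z - aeval x p) {v : HeightOneSpectrum R}
    (hv : v.intValuation π < 1) {P : k[X]}
    (hx : ∀ p : k[X], v.intValuation (aeval x p) < 1 ↔ P ∣ p) {D : k[X]} {w : R}
    (h : v.intValuation (aeval x D - w ^ ℓ) < 1) : ∃ p : k[X], P ∣ D - p ^ ℓ := by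
  obtain ⟨p, hp⟩ := hs w
  have h10 : π ∣ w ^ ℓ - (aeval x p) ^ ℓ := hp.trans (sub_dvd_pow_sub_pow _ _ _)
  refine ⟨p, (hx _).1 ?_⟩
  rw [HeightOneSpectrum.intValuation_lt_one_iff_mem] at h hv ⊢
  have e1 : aeval x (D - p ^ ℓ) = (aeval x D - w ^ ℓ) + (w ^ ℓ - (aeval x p) ^ ℓ) := by
    rw [map_sub, map_pow]; ring
  rw [e1]
  exact v.asIdeal.add_mem h (Ideal.mem_of_dvd _ h10 hv)

/-- the condition on the norm residues gives trivial elements -/
theorem stepB2 (hℓ : ℓ.Prime) {l : List (k[X] × k)} {b : k[X]} {a : k}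
    (hc : Cond2 ℓ q g (l ++ [(b, a)])) {R : Type} [CommRing R] [IsDedekindDomain R] [Algebra k R]
    {x π : R} (hπ : π ≠ 0)
    (hd : ∀ p : k[X], π ∣ aeval x p ↔ (g + (EE ℓ (RingHom.id k[X]) l b) ^ q) ∣ p)
    (hs : ∀ z : R, ∃ p : k[X], π ∣ z - aeval x p) (c : k) (hc0 : c ≠ 0) (A : k[X]) (j : ℕ)
    (hA : VV g A)
    (hnr : ∀ v : HeightOneSpectrum R, v.intValuation π ≠ 1 → ∃ (e : ℕ) (w : R),
      v.intValuation w = 1 ∧ v.intValuation (algebraMap k R c * (aeval x A * π ^ j) -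
          ((-1) ^ (ℓ - 1) * π) ^ e * w ^ ℓ) < exp (-(e : ℤ))) : Triv ℓ g A := by
  have hsq : Squarefree (g + (EE ℓ (RingHom.id k[X]) l b) ^ q) :=
    (hc.gsep l b a [] rfl).squarefree
  have hcop : IsCoprime g (g + (EE ℓ (RingHom.id k[X]) l b) ^ q) := by
    have := (hc.cpr l b a [] rfl).pow_right (n := q)
    have h2 := this.add_mul_left_right 1
    rwa [mul_one, add_comm] at h2
  have hall : ∀ P : k[X], Irreducible P → P ∣ (g + (EE ℓ (RingHom.id k[X]) l b) ^ q) →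
      ∃ p : k[X], P ∣ C (c * ((-1) ^ (ℓ - 1)) ^ j) * A - p ^ ℓ := by
    intro P hP hPG
    obtain ⟨v, hv, hx⟩ := exists_place hπ hd hs hP hPG
    have hPA : ¬ P ∣ A := by
      intro hPA
      obtain ⟨N, hN⟩ := hA
      have h1 : P ∣ g := hP.prime.dvd_of_dvd_pow (hPA.trans hN)
      exact hP.not_isUnit (hcop.isUnit_of_dvd' h1 hPG)
    have hvA : v.intValuation (aeval x A) = 1 := by
      by_contra hne
      exact hPA ((hx A).1 (lt_of_le_of_ne (HeightOneSpectrum.intValuation_le_one _ _) hne))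
    have hvπ := (val_cases' hsq hd hs hπ v).resolve_left hv.ne
    obtain ⟨w, hw⟩ := stepB1 hℓ hvπ c hc0 A j hvA (hnr v hv.ne)
    exact res_pow hs hv hx hw
  obtain ⟨w, hw⟩ := crt_pow ℓ _ _ _ hsq le_rfl hall
  exact hc.step l b a [] rfl (c * ((-1) ^ (ℓ - 1)) ^ j) A w
    (mul_ne_zero hc0 (pow_ne_zero _ (pow_ne_zero _ (by norm_num)))) hA hw

theorem step2 (h1 : StKum) (h2 : StTS) (h3 : StRes) (h4 : StPres) (h6 : StRow) (hℓ : ℓ.Prime)
    (hq : q = ℓ ^ (s + 1))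
    (hζ : IsPrimitiveRoot ζ q) {l : List (k[X] × k)} {b : k[X]} {a : k}
    (hc : Cond2 ℓ q g (l ++ [(b, a)])) {R : Type} [CommRing R] [IsDedekindDomain R] [Algebra k R]
    {x u : R} (hP : Pres x u (FF ℓ q g l)) (hR : PropR ℓ g x) :
    ∃ (R' : Type) (_ : CommRing R') (_ : IsDedekindDomain R') (_ : Algebra k R') (x' u' : R'),
      Pres x' u' (FF ℓ q g (l ++ [(b, a)])) ∧ PropR ℓ g x' := by
  have hq2 : 2 ≤ q := by rw [hq]; exact Nat.one_lt_pow (by omega) hℓ.one_lt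
  obtain ⟨π, hπ, huπ, hd, hs⟩ := step_data2 h3 hℓ hq2 hc hP
  have ha : a ≠ 0 := hc.ne l b a [] rfl
  have hsq : Squarefree (g + (EE ℓ (RingHom.id k[X]) l b) ^ q) :=
    (hc.gsep l b a [] rfl).squarefree
  have hval : ∀ v : HeightOneSpectrum R, v.intValuation π = 1 ∨ v.intValuation π = exp (-1 : ℤ) :=
    fun v => val_cases' hsq hd hs hπ v
  have hnd : ¬ ℓ ∣ (g + (EE ℓ (RingHom.id k[X]) l b) ^ q).natDegree := fun hdv => by
    rw [degG2 hc] at hdv
    have := Nat.eq_one_of_dvd_coprimes hc.cop dvd_rfl hdv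
    exact hℓ.one_lt.ne' this
  obtain ⟨p0, hp0, hp0G, hp0l⟩ := exists_good (ℓ := ℓ) _ _ hsq.ne_zero le_rfl hnd
  obtain ⟨v0, hv0, hx0⟩ := exists_place hπ hd hs hp0 hp0G
  have hζ' : IsPrimitiveRoot (ζ ^ (ℓ ^ s)) ℓ := hζ.pow (by omega) (by rw [hq, pow_succ])
  obtain ⟨hD, hK⟩ := h1 ℓ k R (ζ ^ (ℓ ^ s)) π hℓ.one_lt hζ' hval ⟨v0, (hval v0).resolve_left hv0.ne⟩
  letI := hD
  have hPr := h4 k R x u π (FF ℓ q g l) ℓ a b hℓ.pos ha huπ hP
  rw [← FF_append] at hPr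
  obtain ⟨H, hgx⟩ : ∃ H : R, aeval x g = -H ^ q := by
    have h5 := (hP.ker (FF ℓ q g l)).2 dvd_rfl
    unfold FF at h5
    rw [eval₂_add, eval₂_C, eval₂_pow] at h5
    exact ⟨_, eq_neg_of_add_eq_zero_left h5⟩
  refine ⟨AdjoinRoot (X ^ ℓ - C π : R[X]), inferInstance, hD, inferInstance, _, _, hPr, ?_⟩
  intro L _ _ _ _ hcL z hz hzP
  obtain ⟨σ, hKx⟩ := hK L (fun c => hcL c)
  have hinjL : ∀ a : R, a ≠ 0 → algebraMap (AdjoinRoot (X ^ ℓ - C π : R[X])) L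
      (algebraMap R (AdjoinRoot (X ^ ℓ - C π : R[X])) a) ≠ 0 := fun a ha h => by
    apply ha
    apply hKx.inj
    rw [map_zero]
    exact (IsFractionRing.injective (AdjoinRoot (X ^ ℓ - C π : R[X])) L) (by rw [h, map_zero])
  have hV : ∀ d ∈ {d : R | d ≠ 0 ∧ ∃ (A : k[X]) (j : ℕ), VV g A ∧ d = aeval x A * π ^ j},
      ∀ d' ∈ {d : R | d ≠ 0 ∧ ∃ (A : k[X]) (j : ℕ), VV g A ∧ d = aeval x A * π ^ j},
      d * d' ∈ {d : R | d ≠ 0 ∧ ∃ (A : k[X]) (j : ℕ), VV g A ∧ d = aeval x A * π ^ j} := by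
    rintro d ⟨hd0, A, j, hA, rfl⟩ d' ⟨hd0', A', j', hA', rfl⟩
    exact ⟨mul_ne_zero hd0 hd0', A * A', j + j', VV.mul hA hA', by rw [map_mul, pow_add]; ring⟩
  have hV1 : (1 : R) ∈ {d : R | d ≠ 0 ∧ ∃ (A : k[X]) (j : ℕ), VV g A ∧ d = aeval x A * π ^ j} :=
    ⟨one_ne_zero, 1, 0, VV.one g, by rw [map_one, pow_zero, mul_one]⟩
  refine Exists.elim (h2 ℓ 0 ℓ k R (AdjoinRoot (X ^ ℓ - C π : R[X])) L (ζ ^ (ℓ ^ s)) π _ σ
    {d : R | d ≠ 0 ∧ ∃ (A : k[X]) (j : ℕ), VV g A ∧ d = aeval x A * π ^ j} hℓ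
    (by rw [zero_add, pow_one]) hζ' hKx hval
    ⟨hV1, fun h => h.1 rfl, hV⟩ ?_ ?_ ?_ z hz hzP) ?_
  · intro a' b' ha' hb' hab
    exact stepA2 h6 hℓ hq hc hP hπ huπ hR a' b' ha' hb' hab
  · rintro c d hc0 ⟨hd0, A, j, hA, rfl⟩ hnr
    obtain ⟨c', i, W, hc', hAW⟩ := stepB2 hℓ hc hπ hd hs c hc0 A j hA hnr
    have hid := stepAlg (R := R) (R' := AdjoinRoot (X ^ ℓ - C π : R[X])) (L := L) (j := j) hKx.pw
      hKx.sk hgx hq hAW
    refine ⟨c' * (-1) ^ i, _, mul_ne_zero hc' (pow_ne_zero _ (by norm_num)), ?_, hid⟩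
    intro h0
    rw [h0, zero_pow hℓ.ne_zero, mul_zero] at hid
    exact hinjL _ hd0 hid
  · refine ⟨v0, hv0.ne, fun c w hcw => ?_⟩
    have h5 : v0.intValuation (aeval x (C c : k[X]) - w ^ ℓ) < 1 := by rw [aeval_C]; exact hcw
    obtain ⟨p, hp⟩ := res_pow hs hv0 hx0 h5
    exact norm_pw hℓ.pos hp0 ((Nat.Prime.coprime_iff_not_dvd hℓ).2 hp0l) hp
  · rintro c ⟨d, w, hc0, ⟨hd0, A, j, hA, rfl⟩, hw, hzz⟩
    have hπr : algebraMap (AdjoinRoot (X ^ ℓ - C π : R[X])) L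
        (algebraMap R (AdjoinRoot (X ^ ℓ - C π : R[X])) π) =
        algebraMap _ L (AdjoinRoot.root (X ^ ℓ - C π : R[X])) ^ ℓ := by
      rw [← map_pow]
      exact congrArg _ hKx.pw.symm
    refine ⟨c, A, algebraMap _ L (AdjoinRoot.root (X ^ ℓ - C π : R[X])) ^ j * w, hc0, hA,
      mul_ne_zero (pow_ne_zero _ fun h => ?_) hw, ?_⟩
    · rw [h, zero_pow hℓ.ne_zero] at hπr
      exact hinjL π hπ hπr
    · rw [hzz, map_mul, map_mul, map_pow, map_pow, hπr, aeval_algebraMap_apply]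
      ring

theorem init2 {l : List (k[X] × k)} {p : k[X] × k} (hc : Cond2 ℓ q g (l ++ [p])) : Cond2 ℓ q g l := by
  have e : ∀ l₁ b a l₂, l = l₁ ++ (b, a) :: l₂ → l ++ [p] = l₁ ++ (b, a) :: (l₂ ++ [p]) := by
    intro l₁ b a l₂ h
    rw [h, List.append_assoc]
    rfl
  exact ⟨hc.monic, hc.sep, hc.cop, hc.redei,
    fun l₁ b a l₂ h => hc.ne l₁ b a _ (e l₁ b a l₂ h),
    fun l₁ b a l₂ h => hc.deg l₁ b a _ (e l₁ b a l₂ h),
    fun l₁ b a l₂ h => hc.cpr l₁ b a _ (e l₁ b a l₂ h),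
    fun l₁ b a l₂ h => hc.gsep l₁ b a _ (e l₁ b a l₂ h),
    fun l₁ b a l₂ h => hc.step l₁ b a _ (e l₁ b a l₂ h),
    fun l₁ b a l₂ h => hc.row l₁ b a _ (e l₁ b a l₂ h)⟩

theorem tower2 (h1 : StKum) (h2 : StTS) (h3 : StRes) (h4 : StPres) (h5 : StPres0) (h6 : StRow)
    (hℓ : ℓ.Prime) (hq : q = ℓ ^ (s + 1)) (hζ : IsPrimitiveRoot ζ q) (l : List (k[X] × k))
    (hc : Cond2 ℓ q g l) :
    ∃ (R : Type) (_ : CommRing R) (_ : IsDedekindDomain R) (_ : Algebra k R) (x u : R),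
      Pres x u (FF ℓ q g l) ∧ PropR ℓ g x := by
  induction l using List.reverseRecOn with
  | nil => exact base h1 h2 h5 hℓ hq hζ hc.sep hc.cop hc.redei
  | append_singleton l p ih =>
    obtain ⟨b, a⟩ := p
    obtain ⟨R, i1, i2, i3, x, u, hP, hR⟩ := ih (init2 hc)
    exact step2 h1 h2 h3 h4 h6 hℓ hq hζ hc hP hR

end step

theorem stTower2 (h1 : StKum) (h2 : StTS) (h3 : StRes) (h4 : StPres) (h5 : StPres0) (h6 : StRow) :
    StTower2 := by
  intro ℓ q s k _ ζ g l hℓ hq hζ hc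
  exact tower2 h1 h2 h3 h4 h5 h6 hℓ hq hζ l hc

end Pool.Agent.Y125.FT2
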