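import Pool.Agent.Y228.FT.TwE
import Pool.Agent.Y160.FT2.Stmts

set_option autoImplicit false
set_option linter.all false

/-! FT2-Tower: the places above a separable residue polynomial. -/

namespace Pool.Agent.Y125.FT2

open Polynomial IsDedekindDomain WithZero
open Pool.Agent.Y160.SE (IsPw)
open Pool.Agent.Y160.FT
open Pool.Agent.Y228.FT

section crt

variable {k : Type} [Field k]

/-- Chinese remainder theorem for residues modulo `ℓ`-th powers -/
theorem crt_pow (ℓ : ℕ) (D : k[X]) : ∀ (n : ℕ) (G : k[X]), Squarefree G → G.natDegree ≤ n →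
    (∀ P : k[X], Irreducible P → P ∣ G → ∃ p : k[X], P ∣ D - p ^ ℓ) →
    ∃ w : k[X], G ∣ D - w ^ ℓ := by
  intro n
  induction n with
  | zero =>
    intro G hG hn _
    have hu : IsUnit G := by
      rw [isUnit_iff_degree_eq_zero, degree_eq_natDegree hG.ne_zero, Nat.le_zero.1 hn]
      rfl
    exact ⟨0, hu.dvd⟩
  | succ n ih =>
    intro G hG hn h
    by_cases hu : IsUnit G
    · exact ⟨0, hu.dvd⟩
    obtain ⟨P, hP, G', rfl⟩ := WfDvdMonoid.exists_irreducible_factor hu hG.ne_zero
    have hP0 := hP.ne_zero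
    have hG0 : G' ≠ 0 := right_ne_zero_of_mul hG.ne_zero
    have hd := hP.natDegree_pos
    rw [natDegree_mul hP0 hG0] at hn
    obtain ⟨p, hp⟩ := h P hP (dvd_mul_right _ _)
    obtain ⟨w, hw⟩ := ih G' (hG.squarefree_of_dvd (dvd_mul_left _ _)) (by omega)
      (fun Q hQ hQG => h Q hQ (hQG.mul_left _))
    have hcop : IsCoprime P G' := by
      rw [hP.coprime_iff_not_dvd]
      rintro ⟨G'', rfl⟩
      exact hP.not_isUnit (hG P ⟨G'', by ring⟩)
    obtain ⟨a, b, hab⟩ := hcop
    refine ⟨p * (b * G') + w * (a * P), hcop_mul ⟨a, b, hab⟩ ?_ ?_⟩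
    · have h1 : P ∣ p ^ ℓ - (p * (b * G') + w * (a * P)) ^ ℓ := by
        refine Dvd.dvd.trans ?_ (sub_dvd_pow_sub_pow _ _ _)
        refine ⟨a * (p - w), ?_⟩
        linear_combination (-p) * hab
      have := dvd_add hp h1
      rwa [sub_add_sub_cancel] at this
    · have h1 : G' ∣ w ^ ℓ - (p * (b * G') + w * (a * P)) ^ ℓ := by
        refine Dvd.dvd.trans ?_ (sub_dvd_pow_sub_pow _ _ _)
        refine ⟨b * (w - p), ?_⟩
        linear_combination (-w) * hab
      have := dvd_add hw h1
      rwa [sub_add_sub_cancel] at this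
where
  hcop_mul {a b c : k[X]} (h : IsCoprime a b) (h1 : a ∣ c) (h2 : b ∣ c) : a * b ∣ c := h.mul_dvd h1 h2

end crt

section placesG

variable {k R : Type} [Field k] [CommRing R] [IsDedekindDomain R] [Algebra k R] {x π : R} {G : k[X]}

/-- the place over a factor of the residue polynomial -/
theorem exists_place (hπ0 : π ≠ 0) (hd : ∀ p : k[X], π ∣ aeval x p ↔ G ∣ p)
    (hs : ∀ z : R, ∃ p : k[X], π ∣ z - aeval x p) {P : k[X]} (hP : Irreducible P) (hPG : P ∣ G) :
    ∃ v : HeightOneSpectrum R, v.intValuation π < 1 ∧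
      ∀ p : k[X], v.intValuation (aeval x p) < 1 ↔ P ∣ p := by
  let I : Ideal R := {
    carrier := {z | ∃ p : k[X], π ∣ z - aeval x p ∧ P ∣ p}
    zero_mem' := ⟨0, by rw [map_zero, sub_zero]; exact dvd_zero _, dvd_zero _⟩
    add_mem' := by
      rintro y z ⟨p, hp, hp'⟩ ⟨r, hr, hr'⟩
      refine ⟨p + r, ?_, dvd_add hp' hr'⟩
      have : y + z - aeval x (p + r) = (y - aeval x p) + (z - aeval x r) := by
        rw [map_add]; ring
      rw [this]
      exact dvd_add hp hr
    smul_mem' := by
      rintro y z ⟨p, hp, hp'⟩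
      obtain ⟨r, hr⟩ := hs y
      refine ⟨r * p, ?_, hp'.mul_left _⟩
      have : y • z - aeval x (r * p) = (y - aeval x r) * z + aeval x r * (z - aeval x p) := by
        rw [map_mul, smul_eq_mul]; ring
      rw [this]
      exact dvd_add (hr.mul_right _) (hp.mul_left _) }
  have hmem : ∀ (z : R) (p : k[X]), π ∣ z - aeval x p → (z ∈ I ↔ P ∣ p) := by
    intro z p hp
    constructor
    · rintro ⟨r, hr, hr'⟩
      have h1 : π ∣ aeval x (r - p) := by
        have := dvd_sub hp hr
        have e : z - aeval x p - (z - aeval x r) = aeval x (r - p) := by rw [map_sub]; ring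
        rwa [e] at this
      have h2 : P ∣ r - p := hPG.trans ((hd _).1 h1)
      have := dvd_sub hr' h2
      rwa [sub_sub_cancel] at this
    · intro h
      exact ⟨p, hp, h⟩
  have hπI : π ∈ I := (hmem π 0 (by rw [map_zero, sub_zero])).2 (dvd_zero _)
  have hx : ∀ p : k[X], aeval x p ∈ I ↔ P ∣ p := fun p => hmem _ p (by rw [sub_self]; exact dvd_zero _)
  have hprime : I.IsPrime := by
    refine ⟨fun h => ?_, ?_⟩
    · have h1 : (1 : R) ∈ I := by rw [h]; exact Submodule.mem_top
      have h2 := (hmem 1 1 (by rw [map_one, sub_self]; exact dvd_zero _)).1 h1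
      exact hP.not_isUnit (isUnit_of_dvd_one h2)
    · intro y z hyz
      obtain ⟨p, hp⟩ := hs y
      obtain ⟨r, hr⟩ := hs z
      have h1 : π ∣ y * z - aeval x (p * r) := by
        have : y * z - aeval x (p * r) = (y - aeval x p) * z + aeval x p * (z - aeval x r) := by
          rw [map_mul]; ring
        rw [this]
        exact dvd_add (hp.mul_right _) (hr.mul_left _)
      rcases hP.prime.dvd_or_dvd ((hmem _ _ h1).1 hyz) with h | h
      · exact Or.inl ((hmem _ _ hp).2 h)
      · exact Or.inr ((hmem _ _ hr).2 h)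
  refine ⟨⟨I, hprime, fun h => hπ0 ?_⟩, ?_, fun p => ?_⟩
  · rw [h] at hπI
    exact hπI
  · rw [HeightOneSpectrum.intValuation_lt_one_iff_mem]
    exact hπI
  · rw [HeightOneSpectrum.intValuation_lt_one_iff_mem]
    exact hx p

/-- every place over `π` lies over a factor of the residue polynomial -/
theorem place_factor (hG0 : G ≠ 0) (hd : ∀ p : k[X], π ∣ aeval x p ↔ G ∣ p)
    (v : HeightOneSpectrum R) (hv : v.intValuation π < 1) :
    ∃ P : k[X], Irreducible P ∧ P ∣ G ∧ ∀ p : k[X], v.intValuation (aeval x p) < 1 ↔ P ∣ p := by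
  rw [HeightOneSpectrum.intValuation_lt_one_iff_mem] at hv
  have hprime : (v.asIdeal.comap (aeval x : k[X] →ₐ[k] R)).IsPrime := by
    haveI := v.isPrime
    exact Ideal.comap_isPrime _ _
  have hGm : G ∈ v.asIdeal.comap (aeval x : k[X] →ₐ[k] R) := by
    rw [Ideal.mem_comap]
    exact Ideal.mem_of_dvd _ ((hd G).2 dvd_rfl) hv
  have hne : v.asIdeal.comap (aeval x : k[X] →ₐ[k] R) ≠ ⊥ := fun h => by
    rw [h] at hGm
    exact hG0 hGm
  let v' : HeightOneSpectrum k[X] := ⟨_, hprime, hne⟩
  obtain ⟨P, hP, hPv⟩ := exists_prime_of_place v'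
  have hx : ∀ p : k[X], v.intValuation (aeval x p) < 1 ↔ P ∣ p := by
    intro p
    rw [HeightOneSpectrum.intValuation_lt_one_iff_mem, ← vpr_lt_one hP p, ← hPv,
      HeightOneSpectrum.intValuation_lt_one_iff_mem]
    rfl
  refine ⟨P, hP.irreducible, (hx G).1 ?_, hx⟩
  rw [HeightOneSpectrum.intValuation_lt_one_iff_mem]
  exact hGm

/-- `π` is squarefree -/
theorem val_cases' (hG : Squarefree G) (hd : ∀ p : k[X], π ∣ aeval x p ↔ G ∣ p)
    (hs : ∀ z : R, ∃ p : k[X], π ∣ z - aeval x p) (hπ0 : π ≠ 0) (v : HeightOneSpectrum R) :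
    v.intValuation π = 1 ∨ v.intValuation π = exp (-1 : ℤ) := by
  by_cases h : v.intValuation π = 1
  · exact Or.inl h
  right
  have hlt : v.intValuation π < 1 := lt_of_le_of_ne (HeightOneSpectrum.intValuation_le_one _ _) h
  obtain ⟨P, hP, hPG, hx⟩ := place_factor hG.ne_zero hd v hlt
  obtain ⟨m, hm⟩ : ∃ m : ℕ, v.intValuation π = exp (-(m : ℤ)) :=
    ⟨_, HeightOneSpectrum.intValuation_if_neg _ hπ0⟩
  have hnot : ¬ v.intValuation π ≤ exp (-((2 : ℕ) : ℤ)) := by
    intro h2
    rw [HeightOneSpectrum.intValuation_le_pow_iff_mem] at h2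
    -- the ideal is generated by `π` and `P(x)`
    have hgen : ∀ z ∈ v.asIdeal, ∃ α β : R, z = α * π + β * aeval x P := by
      intro z hz
      obtain ⟨p, hp⟩ := hs z
      have h3 : v.intValuation (aeval x p) < 1 := by
        rw [HeightOneSpectrum.intValuation_lt_one_iff_mem]
        have h4 : z - aeval x p ∈ v.asIdeal := Ideal.mem_of_dvd _ hp
          ((HeightOneSpectrum.intValuation_lt_one_iff_mem v π).1 hlt)
        have := v.asIdeal.sub_mem hz h4
        rwa [sub_sub_cancel] at this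
      obtain ⟨r, hr⟩ := (hx p).1 h3
      obtain ⟨α, hα⟩ := hp
      refine ⟨α, aeval x r, ?_⟩
      have : z = π * α + aeval x p := by rw [← hα]; ring
      rw [this, hr, map_mul]
      ring
    have hPm : aeval x P ∈ v.asIdeal := by
      rw [← HeightOneSpectrum.intValuation_lt_one_iff_mem]
      exact (hx P).2 dvd_rfl
    have hπm : π ∈ v.asIdeal := (HeightOneSpectrum.intValuation_lt_one_iff_mem v π).1 hlt
    have hsq : ∀ z ∈ v.asIdeal ^ 2, ∃ α γ : R, α ∈ v.asIdeal ∧ z = α * π + γ * (aeval x P) ^ 2 := by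
      intro z hz
      rw [sq] at hz
      refine Submodule.mul_induction_on hz ?_ ?_
      · intro y hy w hw
        obtain ⟨α, β, h5⟩ := hgen y hy
        obtain ⟨α', β', h6⟩ := hgen w hw
        refine ⟨α * w + β * aeval x P * α', β * β', ?_, ?_⟩
        · refine v.asIdeal.add_mem (v.asIdeal.mul_mem_left _ hw) ?_
          have : β * aeval x P * α' = (β * α') * aeval x P := by ring
          rw [this]
          exact v.asIdeal.mul_mem_left _ hPm
        · rw [h5]
          nth_rewrite 1 [h6]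
          rw [h6]
          ring
      · rintro y w ⟨α, γ, hα, rfl⟩ ⟨α', γ', hα', rfl⟩
        exact ⟨α + α', γ + γ', v.asIdeal.add_mem hα hα', by ring⟩
    obtain ⟨α, γ, hα, hπe⟩ := hsq π h2
    obtain ⟨c, δ, hc⟩ := hs γ
    have h7 : π ∣ aeval x (c * P ^ 2) := by
      refine ⟨1 - α - δ * (aeval x P) ^ 2, ?_⟩
      rw [map_mul, map_pow]
      have e1 : aeval x c = γ - π * δ := by rw [← hc]; ring
      rw [e1]
      linear_combination -hπe
    have h8 : G ∣ c * P := by
      have h9 := (hd _).1 h7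
      obtain ⟨G', rfl⟩ := hPG
      have hcop : ¬ P ∣ G' := by
        rintro ⟨G'', rfl⟩
        exact hP.not_isUnit (hG P ⟨G'', by ring⟩)
      have h10 : G' ∣ c * P := by
        have h11 : P * G' ∣ P * (c * P) := by
          have e : P * (c * P) = c * P ^ 2 := by ring
          rw [e]; exact h9
        exact (mul_dvd_mul_iff_left hP.ne_zero).1 h11
      have h12 : G' ∣ c := by
        have : IsCoprime G' P := (hP.coprime_iff_not_dvd.2 hcop).symm
        exact this.dvd_of_dvd_mul_right h10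
      rw [mul_comm c P]
      exact mul_dvd_mul_left P h12
    obtain ⟨ε, hε⟩ := (hd _).2 h8
    have h13 : π * (1 - α - δ * (aeval x P) ^ 2 - ε * aeval x P) = 0 := by
      have e1 : γ = π * δ + aeval x c := by rw [← hc]; ring
      rw [map_mul] at hε
      rw [e1] at hπe
      linear_combination hπe + (aeval x P) * hε
    have h14 : 1 - α - δ * (aeval x P) ^ 2 - ε * aeval x P = 0 := (mul_eq_zero.1 h13).resolve_left hπ0
    have h15 : (1 : R) ∈ v.asIdeal := by
      have e : (1 : R) = α + δ * aeval x P * aeval x P + ε * aeval x P := by linear_combination h14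
      rw [e]
      exact v.asIdeal.add_mem (v.asIdeal.add_mem hα (v.asIdeal.mul_mem_left _ hPm))
        (v.asIdeal.mul_mem_left _ hPm)
    exact v.isPrime.ne_top (v.asIdeal.eq_top_iff_one.2 h15)
  have h1 : 1 ≤ m := by
    by_contra hcon
    have : m = 0 := by omega
    rw [this] at hm
    rw [hm] at hlt
    simp at hlt
  rw [hm, exp_le_exp] at hnot
  have : m = 1 := by push_cast at hnot; omega
  rw [hm, this]
  rfl

end placesG

end Pool.Agent.Y125.FT2
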